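import Pool.Agent.H29.FX.Targets
import Pool.Agent.H26.TE.DET

/-!
Row DTD of tfx_modules (MP_7ecdd4_nt): divisibility of a determinant.
-/

set_option autoImplicit false

namespace Pool.Agent.H26.FX

open Pool.Agent.H29.FX

theorem pf_DTD : T_DTD := by
  classical
  intro N κ _ q T V E
  have h := Pool.Agent.H26.TE.te_det q T V E
  rwa [Fintype.card_fin] at h

end Pool.Agent.H26.FX
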