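import Pool.Agent.H29.FX.Targets
import Pool.Agent.H26.TE.NRM

/-!
Row NRM of tfx_modules (MP_7ecdd4_nt): the norm of polynomials.
-/

set_option autoImplicit false

namespace Pool.Agent.H26.FX

open Pool.Agent.H29.FX MvPolynomial

theorem NRM_eq {n : ℕ} (f : Pl n) : nm f = Pool.Agent.H26.TE.nm f := rfl

theorem pf_NRM : T_NRM := by
  intro n
  simp only [NRM_eq]
  exact ⟨Pool.Agent.H26.TE.nm_nonneg, Pool.Agent.H26.TE.nm_add, Pool.Agent.H26.TE.nm_neg,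
    Pool.Agent.H26.TE.nm_mul, Pool.Agent.H26.TE.nm_C, Pool.Agent.H26.TE.nm_X,
    fun v f => ⟨Pool.Agent.H26.TE.nm_pderiv v f, Pool.Agent.H26.TE.deg_pderiv v f⟩,
    fun f Y x hY hx => Pool.Agent.H26.TE.nm_eval f x Y hY hx⟩

end Pool.Agent.H26.FX
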