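import Pool.Agent.H29.FX.Targets
import Pool.Agent.H26.TE.PRI

/-!
Row PRI of tfx_modules (MP_7ecdd4_nt): a prime which does not divide a given integer.
-/

set_option autoImplicit false

namespace Pool.Agent.H26.FX

open Pool.Agent.H29.FX

theorem pf_PRI : T_PRI := by
  obtain ⟨Y₀, h0, h⟩ := Pool.Agent.H26.TE.te_pri
  refine ⟨Y₀, h0, fun Y N hY hN hlog => ?_⟩
  obtain ⟨p, hp, h1, h2, h3⟩ := h Y hY N hN hlog
  exact ⟨p, hp, h1.le, h2, h3⟩

end Pool.Agent.H26.FX
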