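import Pool.Agent.H29.FX.Targets
import Pool.Agent.H26.TE.KRN

/-!
Row RNK of tfx_modules (MP_7ecdd4_nt): a relation with small coefficients.
-/

set_option autoImplicit false

namespace Pool.Agent.H26.FX

open Pool.Agent.H29.FX

theorem pf_RNK : T_RNK := by
  intro N T κ Y f _ hT hf hdet
  have hB : 1 ≤ ⌊T⌋ := Int.le_floor.2 (by exact_mod_cast hT)
  obtain ⟨G, hG0, hG1, hG2⟩ := Pool.Agent.H26.TE.te_krn
    (fun (y : {y // y ∈ Y}) (j : Fin N) => f j y.1) ⌊T⌋ hB
    (by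
      intro y j
      have h1 := hf j y.1 y.2
      have h2 : ((|f j y.1| : ℤ) : ℝ) ≤ T := by
        push_cast
        exact h1
      exact Int.le_floor.2 h2)
    (by
      intro y
      exact hdet (fun i => (y i).1) fun i => (y i).2)
  refine ⟨G, hG0, ?_, ?_⟩
  · intro j
    have h1 : ((|G j| : ℤ) : ℝ) ≤ (((N.factorial : ℤ) * ⌊T⌋ ^ N : ℤ) : ℝ) := by
      exact_mod_cast hG1 j
    push_cast at h1
    refine h1.trans ?_
    refine mul_le_mul_of_nonneg_left ?_ (Nat.cast_nonneg _)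
    have h2 : (0 : ℝ) ≤ (⌊T⌋ : ℝ) := by
      have : (0 : ℤ) ≤ ⌊T⌋ := by omega
      exact_mod_cast this
    exact pow_le_pow_left₀ h2 (Int.floor_le T) N
  · intro y hy
    have h1 := hG2 ⟨y, hy⟩
    rw [← h1]
    exact Finset.sum_congr rfl fun j _ => mul_comm _ _

end Pool.Agent.H26.FX
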